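import Mathlib

/-!
# Halfspaces of the Boolean cube are not uniformly bi-Lipschitz transitive

The halfspace has `2 k` coordinates of weight `1` and `2 ^ (2 k)` coordinates of weight `k`; a point
belongs to it when the total weight of its coordinates equal to `-1` is at most `2 k`. The point
`(1, ..., 1)` has `2 ^ (2 k)` neighbours in the halfspace in the directions of weight `k`, while the
ball of radius `k - 1` around the point whose coordinates equal to `-1` are those of
weight `1` has at most `2 ^ (2 k)` points: near this point there is no room for weight `k`.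
-/

namespace Pool.Agent.Results.MP_ca8ef0_co.NotTransitive

/-- The halfspace `{x ∈ {-1, 1}^n : a₀ + a₁ x₁ + ... + aₙ xₙ ≥ 0}` of the Boolean cube. The cube
`{-1, 1}^n` is the set of functions from `Fin n` to the units `1` and `-1` of the integers. -/
def halfspace {n : ℕ} (a₀ : ℝ) (a : Fin n → ℝ) : Set (Fin n → ℤˣ) :=
  {x | 0 ≤ a₀ + ∑ i, a i * ((x i : ℤ) : ℝ)}

/-- `A` is `C`-bi-Lipschitz transitive: any two points `x`, `y` of `A` are exchanged by a bijection
`f` of `A` all of whose ratios `d (f z) (f w) / d z w` of Hamming distances are in `[1 / C, C]`. -/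
def BiLipTransitive {n : ℕ} (C : ℝ) (A : Set (Fin n → ℤˣ)) : Prop :=
  ∀ x y : A, ∃ f : A → A, Function.Bijective f ∧ f x = y ∧ f y = x ∧
    ∀ z w : A, z ≠ w →
      1 / C ≤ (hammingDist (f z).1 (f w).1 : ℝ) / (hammingDist z.1 w.1 : ℝ) ∧
      (hammingDist (f z).1 (f w).1 : ℝ) / (hammingDist z.1 w.1 : ℝ) ≤ C

/-- The weights of the example. -/
noncomputable def wt (k M : ℕ) : Fin (2 * k + M) → ℝ :=
  Fin.append (fun _ => (1 : ℝ)) (fun _ => (k : ℝ))

/-- The constant term of the example. -/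
noncomputable def w0 (k M : ℕ) : ℝ := 4 * k - (2 * k + k * M)

lemma mem_iff (k M : ℕ) (x : Fin (2 * k + M) → ℤˣ) :
    x ∈ halfspace (w0 k M) (wt k M) ↔
      ∑ i : Fin (2 * k), (1 - ((x (Fin.castAdd M i) : ℤ) : ℝ)) +
        ∑ j : Fin M, (k : ℝ) * (1 - ((x (Fin.natAdd (2 * k) j) : ℤ) : ℝ)) ≤ 4 * k := by
  unfold halfspace w0 wt
  rw [Set.mem_ofPred_eq, Fin.sum_univ_add]
  simp only [Fin.append_left, Fin.append_right, one_mul, mul_sub, mul_one,
    Finset.sum_sub_distrib, Finset.sum_const, Finset.card_univ, Fintype.card_fin, nsmul_eq_mul]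
  push_cast
  constructor <;> intro h <;> nlinarith

lemma coe_le_one (u : ℤˣ) : ((u : ℤ) : ℝ) ≤ 1 := by
  rcases Int.units_eq_one_or u with h | h <;> simp [h]

/-- The top point. -/
def top (n : ℕ) : Fin n → ℤˣ := fun _ => 1

/-- The bad point. -/
def bad (k M : ℕ) : Fin (2 * k + M) → ℤˣ := Fin.append (fun _ => (-1 : ℤˣ)) (fun _ => 1)

/-- The neighbours of the top point. -/
def nb (k M : ℕ) : Option (Fin M) → Fin (2 * k + M) → ℤˣ
  | none => top _
  | some j => Function.update (top _) (Fin.natAdd (2 * k) j) (-1)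

lemma nb_inj (k M : ℕ) : Function.Injective (nb k M) := by
  intro o o' h
  have key : ∀ (j : Fin M) (o : Option (Fin M)),
      nb k M o (Fin.natAdd (2 * k) j) = -1 ↔ o = some j := by
    intro j o
    rcases o with _ | i
    · simp [nb, top]
    · by_cases hij : i = j
      · subst hij; simp [nb]
      · have : Fin.natAdd (2 * k) j ≠ Fin.natAdd (2 * k) i := by
          intro e; exact hij ((Fin.natAdd_injective _ _ e).symm)
        simp [nb, top, Function.update_of_ne this, hij]
  rcases o with _ | i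
  · rcases o' with _ | j
    · rfl
    · have h1 := (key j (some j)).2 rfl
      rw [← h] at h1
      exact (key j none).1 h1
  · have h1 := (key i (some i)).2 rfl
    rw [h] at h1
    exact ((key i o').1 h1).symm

lemma dist_nb (k M : ℕ) (j : Fin M) : hammingDist (top (2 * k + M)) (nb k M (some j)) = 1 := by
  classical
  unfold hammingDist
  rw [Finset.card_eq_one]
  refine ⟨Fin.natAdd (2 * k) j, ?_⟩
  ext i
  simp only [Finset.mem_filter, Finset.mem_univ, true_and, Finset.mem_singleton]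
  by_cases hi : i = Fin.natAdd (2 * k) j
  · subst hi; simp [nb, top]
  · simp [nb, top, hi]

lemma nb_mem (k M : ℕ) (o : Option (Fin M)) : nb k M o ∈ halfspace (w0 k M) (wt k M) := by
  classical
  rw [mem_iff]
  have h1 : ∀ i : Fin (2 * k), nb k M o (Fin.castAdd M i) = 1 := by
    intro i
    rcases o with _ | j
    · rfl
    · have : Fin.castAdd M i ≠ Fin.natAdd (2 * k) j := by
        intro e
        have := congrArg Fin.val e
        simp at this
        omega
      simp [nb, top, Function.update_of_ne this]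
  have h2 : ∑ j : Fin M, (k : ℝ) * (1 - ((nb k M o (Fin.natAdd (2 * k) j) : ℤ) : ℝ)) ≤ 2 * k := by
    rcases o with _ | i
    · simp [nb, top]
    · rw [Finset.sum_eq_single i]
      · simp [nb]; linarith
      · intro j _ hj
        have : Fin.natAdd (2 * k) j ≠ Fin.natAdd (2 * k) i := by
          intro e; exact hj (Fin.natAdd_injective _ _ e)
        simp [nb, top, Function.update_of_ne this]
      · intro h; exact absurd (Finset.mem_univ _) h
  have h3 : ∑ i : Fin (2 * k), (1 - ((nb k M o (Fin.castAdd M i) : ℤ) : ℝ)) = 0 := by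
    apply Finset.sum_eq_zero
    intro i _
    rw [h1]; simp
  rw [h3]
  have : (0 : ℝ) ≤ k := Nat.cast_nonneg k
  linarith

lemma bad_mem (k M : ℕ) : bad k M ∈ halfspace (w0 k M) (wt k M) := by
  rw [mem_iff]
  simp only [bad, Fin.append_left, Fin.append_right]
  norm_num
  linarith [show (0 : ℝ) ≤ k from Nat.cast_nonneg k]

/-- Near the bad point there are no coordinates `-1` of large weight. -/
lemma near_bad (k M : ℕ) (u : Fin (2 * k + M) → ℤˣ) (hu : u ∈ halfspace (w0 k M) (wt k M))
    (hd : hammingDist (bad k M) u < k) (j : Fin M) : u (Fin.natAdd (2 * k) j) = 1 := by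
  classical
  rcases Int.units_eq_one_or (u (Fin.natAdd (2 * k) j)) with h | h
  · exact h
  exfalso
  rw [mem_iff] at hu
  have hk0 : (0 : ℝ) ≤ k := Nat.cast_nonneg k
  have h2 : (2 : ℝ) * k ≤
      ∑ j : Fin M, (k : ℝ) * (1 - ((u (Fin.natAdd (2 * k) j) : ℤ) : ℝ)) := by
    have := Finset.single_le_sum
      (f := fun j : Fin M => (k : ℝ) * (1 - ((u (Fin.natAdd (2 * k) j) : ℤ) : ℝ)))
      (fun i _ => mul_nonneg hk0 (by linarith [coe_le_one (u (Fin.natAdd (2 * k) i))]))
      (Finset.mem_univ j)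
    simp only [h] at this
    refine le_trans ?_ this
    norm_num
    linarith
  -- the tiny coordinates
  have h3 : ∑ i : Fin (2 * k), (1 - ((u (Fin.castAdd M i) : ℤ) : ℝ)) =
      2 * (2 * k - ((Finset.univ.filter
        (fun i : Fin (2 * k) => u (Fin.castAdd M i) = 1)).card : ℝ)) := by
    have : ∀ i : Fin (2 * k), (1 - ((u (Fin.castAdd M i) : ℤ) : ℝ)) =
        2 - 2 * (if u (Fin.castAdd M i) = 1 then (1 : ℝ) else 0) := by
      intro i
      rcases Int.units_eq_one_or (u (Fin.castAdd M i)) with h | h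
      · simp [h]
      · rw [h]; norm_num
    rw [Finset.sum_congr rfl (fun i _ => this i), Finset.sum_sub_distrib, ← Finset.mul_sum,
      Finset.sum_boole]
    simp
    ring
  have h4 : (Finset.univ.filter (fun i : Fin (2 * k) => u (Fin.castAdd M i) = 1)).card ≤
      hammingDist (bad k M) u := by
    unfold hammingDist
    apply Finset.card_le_card_of_injOn (Fin.castAdd M)
    · intro i hi
      simp only [Finset.coe_filter, Finset.mem_univ, true_and, Set.mem_ofPred_eq] at hi ⊢
      rw [hi, bad, Fin.append_left]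
      decide
    · intro i _ i' _ h
      exact Fin.castAdd_injective _ _ h
  have h5 : ((Finset.univ.filter (fun i : Fin (2 * k) => u (Fin.castAdd M i) = 1)).card : ℝ) + 1
      ≤ k := by
    exact_mod_cast lt_of_le_of_lt h4 hd
  rw [h3] at hu
  linarith

/-- No injection of the halfspace moves the top point to the bad point and is Lipschitz on the
edges at the top point. -/
lemma key (k : ℕ) (f : halfspace (w0 k (2 ^ (2 * k))) (wt k (2 ^ (2 * k))) →
      halfspace (w0 k (2 ^ (2 * k))) (wt k (2 ^ (2 * k))))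
    (hf : Function.Injective f) (hk : 1 ≤ k)
    (htop : f ⟨nb k (2 ^ (2 * k)) none, nb_mem _ _ _⟩ = ⟨bad _ _, bad_mem _ _⟩) :
    ∃ j, k ≤ hammingDist (f ⟨nb k (2 ^ (2 * k)) none, nb_mem _ _ _⟩).1
      (f ⟨nb k (2 ^ (2 * k)) (some j), nb_mem _ _ _⟩).1 := by
  classical
  by_contra hcon
  push Not at hcon
  rw [htop] at hcon
  have hbig : ∀ (o : Option (Fin (2 ^ (2 * k)))) (j : Fin (2 ^ (2 * k))),
      (f ⟨nb k (2 ^ (2 * k)) o, nb_mem _ _ _⟩).1 (Fin.natAdd (2 * k) j) = 1 := by
    intro o j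
    apply near_bad k _ _ (f ⟨nb k (2 ^ (2 * k)) o, nb_mem _ _ _⟩).2
    rcases o with _ | i
    · rw [htop]; simpa using (show 0 < k by omega)
    · exact hcon i
  let g : Option (Fin (2 ^ (2 * k))) → (Fin (2 * k) → ℤˣ) :=
    fun o i => (f ⟨nb k (2 ^ (2 * k)) o, nb_mem _ _ _⟩).1 (Fin.castAdd _ i)
  have hg : Function.Injective g := by
    intro o o' h
    have h1 : f ⟨nb k (2 ^ (2 * k)) o, nb_mem _ _ _⟩ = f ⟨nb k (2 ^ (2 * k)) o', nb_mem _ _ _⟩ := by
      apply Subtype.ext
      funext i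
      refine Fin.addCases (fun i => ?_) (fun j => ?_) i
      · exact congrFun h i
      · rw [hbig, hbig]
    exact nb_inj _ _ (congrArg Subtype.val (hf h1))
  have := Fintype.card_le_of_injective g hg
  simp at this

/-- **Halfspaces are not uniformly bi-Lipschitz transitive.** For every real `C` there are `n ≥ 1`,
a halfspace `H` of `{-1, 1}^n` and points `x`, `y` of `H` such that no bijection of `H` which
exchanges `x` and `y` has all its distance ratios in `[1 / C, C]`. In fact every injection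
`f : H → H` (not necessarily surjective) with `f x = y` has `d (f x) (f z) > C` for some `z ∈ H`
with `d x z = 1`. -/
theorem result :
    (∀ C : ℝ, ∃ n : ℕ, 1 ≤ n ∧ ∃ (a₀ : ℝ) (a : Fin n → ℝ),
      ¬ BiLipTransitive C (halfspace a₀ a) ∧
      ∃ x y : halfspace a₀ a, ∀ f : halfspace a₀ a → halfspace a₀ a, Function.Injective f →
        f x = y → ∃ z : halfspace a₀ a, hammingDist x.1 z.1 = 1 ∧
          C < hammingDist (f x).1 (f z).1) ∧
    ¬ ∃ C : ℝ, ∀ (n : ℕ) (a₀ : ℝ) (a : Fin n → ℝ), 1 ≤ n → BiLipTransitive C (halfspace a₀ a) := by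
  have main : ∀ C : ℝ, ∃ n : ℕ, 1 ≤ n ∧ ∃ (a₀ : ℝ) (a : Fin n → ℝ),
      ¬ BiLipTransitive C (halfspace a₀ a) ∧
      ∃ x y : halfspace a₀ a, ∀ f : halfspace a₀ a → halfspace a₀ a, Function.Injective f →
        f x = y → ∃ z : halfspace a₀ a, hammingDist x.1 z.1 = 1 ∧
          C < hammingDist (f x).1 (f z).1 := by
    intro C
    obtain ⟨k, hk⟩ := exists_nat_gt (max C 1)
    have hk1 : 1 ≤ k := by
      have : (1 : ℝ) < k := lt_of_le_of_lt (le_max_right _ _) hk
      exact_mod_cast this.le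
    have hkC : C < k := lt_of_le_of_lt (le_max_left _ _) hk
    refine ⟨2 * k + 2 ^ (2 * k), le_add_right (by omega), w0 k (2 ^ (2 * k)), wt k (2 ^ (2 * k)), ?_⟩
    have h2 : ∀ f : halfspace (w0 k (2 ^ (2 * k))) (wt k (2 ^ (2 * k))) →
        halfspace (w0 k (2 ^ (2 * k))) (wt k (2 ^ (2 * k))), Function.Injective f →
        f ⟨nb k (2 ^ (2 * k)) none, nb_mem _ _ _⟩ = ⟨bad _ _, bad_mem _ _⟩ →
        ∃ z : halfspace (w0 k (2 ^ (2 * k))) (wt k (2 ^ (2 * k))),
          hammingDist (nb k (2 ^ (2 * k)) none) z.1 = 1 ∧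
          C < hammingDist (f ⟨nb k (2 ^ (2 * k)) none, nb_mem _ _ _⟩).1 (f z).1 := by
      intro f hf h
      obtain ⟨j, hj⟩ := key k f hf hk1 h
      exact ⟨⟨nb k (2 ^ (2 * k)) (some j), nb_mem _ _ _⟩, dist_nb _ _ _,
        lt_of_lt_of_le hkC (by exact_mod_cast hj)⟩
    refine ⟨?_, ⟨nb k (2 ^ (2 * k)) none, nb_mem _ _ _⟩, ⟨bad _ _, bad_mem _ _⟩, h2⟩
    intro hB
    obtain ⟨f, hf, hxy, -, hlip⟩ :=
      hB ⟨nb k (2 ^ (2 * k)) none, nb_mem _ _ _⟩ ⟨bad _ _, bad_mem _ _⟩
    obtain ⟨z, hz1, hz2⟩ := h2 f hf.injective hxy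
    have hne : (⟨nb k (2 ^ (2 * k)) none, nb_mem _ _ _⟩ :
        halfspace (w0 k (2 ^ (2 * k))) (wt k (2 ^ (2 * k)))) ≠ z := by
      intro e
      rw [← e] at hz1
      simp at hz1
    have := (hlip _ _ hne).2
    rw [hz1] at this
    simp only [Nat.cast_one, div_one] at this
    linarith
  refine ⟨main, ?_⟩
  rintro ⟨C, hC⟩
  obtain ⟨n, hn, a₀, a, h, -⟩ := main C
  exact h (hC n a₀ a hn)

end Pool.Agent.Results.MP_ca8ef0_co.NotTransitive
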